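import Mathlib
import Pool.Agent.X309.RN7

/-!
# Spherical cusp forms on `PGL_n`: bounds towards Ramanujan at almost all primes, uniformly in the form

Let `n ≥ 2`, `m = ⌊n/2⌋`, let `φ` be a spherical cusp form on `PGL_n` over `ℚ` with Satake parameters `α_{i,p}` and
Langlands parameters `μ_i`, let `θ_{φ,p} = max_i |log_p |α_{i,p}||` and let
`C(φ) = ∏_{i,j} (1 + |μ_i - μ_j|)` be the analytic conductor of `L(s, π × π~)`. The known bounds at all primes are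
`θ_{φ,p} ≤ 1/2 - 1/(n²+1)` (Luo, Rudnick, Sarnak), `7/64`, `5/14`, `9/22` for `n = 2, 3, 4`.

**Theorem.** (1) There is `A = A(n)` such that for all `φ` and all `x ≥ 3`

  `∑_{p ≤ x} p^{-m (1 - 2 θ_{φ,p})} ≤ A (log log x + log C(φ))`,

and for all `δ ≤ 1/2` there are at most `A (log log x + log C(φ)) x^{m (1 - 2δ)}` primes `p ≤ x` with
`θ_{φ,p} ≥ δ`.

(2) Let `1/2 - 1/(2m) < δ ≤ 1/2` and `B > 1 / (1 - m (1 - 2δ))`. For every `ε > 0` there is `A = A(n, δ, B, ε)` such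
that for all `φ` and all `x ≥ A (1 + log C(φ))^B` the proportion of the primes `p ≤ x` with `θ_{φ,p} ≥ δ` is at
most `ε`.

(3) For `δ`, `B` as in (2) there is `A = A(n, δ, B)` such that for all `φ` there is a prime
`p ≤ A (1 + log C(φ))^B` with `θ_{φ,p} < δ`.

So `θ_{φ,p} ≤ 1/2 - 1/(2m) + ε` for almost all primes, with an exceptional set of `O(x^{1 - 2mε} (log log x + log C))`
primes up to `x`, and already for most primes below a power of `log C(φ)`. For `n = 2, 3` here `δ > 0` is arbitrary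
and `B > 1/(2δ)`.

Proof. Let `A = p^{θ_p} = max |α_{i,p}|`. As `π_p` is unitary, the multiset of the `α_{i,p}` is stable under
`z ↦ 1 / conj z`, so that `e_{n-k} = e_n conj(e_k)` for the elementary symmetric functions. If all power sums
`p_j = ∑_i α_{i,p}^j`, `1 ≤ j ≤ m`, had absolute value at most `A^j / (2n)`, then by the identities of Newton
`|e_j| ≤ A^j / (2n)` for `1 ≤ j ≤ m`, by the symmetry `|e_{n-j}| ≤ A^j / (2n)`, and `α^n = ± e_1 α^{n-1} ± … ± e_n`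
with `|α| = A` gives `A^n ≤ 2`. Now the `|p_j|² p^{-jσ} / j` are terms of `log L(σ, π × π~)`, and the functional
equation and the principle of Phragmén and Lindelöf give `L(σ, π × π~) ≤ A C(φ)³ / (σ - 1)` for `1 < σ < 2`
(`Pool.Agent.TH949.UL.crude` of the starting library). So `log L(σ, π × π~) ≤ log 1/(σ-1) + 3 log C(φ) + O(1)`: only the
logarithm of the conductor enters. Take `σ = 1 + 1 / log x`.
-/

set_option autoImplicit false

namespace Pool.Agent.Results.MP_fa98d2_nt.BoundsAtAlmostAllPrimes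

open Pool.Agent.TH949.RES (SphericalCuspForm)

variable {n : ℕ}

/-- The Satake parameters `α` and the Langlands parameters `μ` of a spherical cusp form on `PGL_n` over `ℚ`: unitary
components, convergence, continuation and functional equation of `L(s, π × π~)`, bounds of Jacquet and Shalika. -/
structure CuspForm (α : Nat.Primes → Fin n → ℂ) (μ : Fin n → ℂ) : Prop where
  /-- unitarity and the properties of `L(s, π × π~)` -/
  form : SphericalCuspForm α μ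
  /-- the bound of Jacquet and Shalika at `p` -/
  satake : ∀ (p : Nat.Primes) i, ‖α p i‖ < ((p : ℕ) : ℝ) ^ (1 / 2 : ℝ)
  /-- the bound of Jacquet and Shalika at the real place -/
  langlands : ∀ i, |(μ i).re| < 1 / 2

/-- `θ_{φ,p} = max_i |log_p |α_{i,p}||` -/
noncomputable def theta (α : Nat.Primes → Fin n → ℂ) (p : Nat.Primes) : ℝ :=
  ⨆ i, |Real.logb ((p : ℕ) : ℝ) ‖α p i‖|

/-- the analytic conductor `C(φ) = ∏_{i,j} (1 + |μ_i - μ_j|)` of `L(s, π × π~)` -/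
noncomputable def cond (μ : Fin n → ℂ) : ℝ := ∏ i, ∏ j, (1 + ‖μ i - μ j‖)

/-- the number of primes `p ≤ x` with `θ_{φ,p} ≥ δ` -/
noncomputable def count (α : Nat.Primes → Fin n → ℂ) (δ x : ℝ) : ℕ :=
  {p : Nat.Primes | ((p : ℕ) : ℝ) ≤ x ∧ δ ≤ theta α p}.ncard

/-- **Theorem.** Let `n ≥ 2`, `m = ⌊n/2⌋`.

(1) Uniformly in the spherical cusp form `φ` on `PGL_n`: the sum of `p^{-m (1 - 2 θ_{φ,p})}` over the primes `p ≤ x`
is at most `A (log log x + log C(φ))`, and `θ_{φ,p} ≥ δ` for at most `A (log log x + log C(φ)) x^{m (1 - 2δ)}` of them.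

(2) If `B (1 - m (1 - 2δ)) > 1`, `δ ≤ 1/2`, `ε > 0`, then uniformly in `φ` and `x ≥ A (1 + log C(φ))^B`: the number of
primes `p ≤ x` with `θ_{φ,p} ≥ δ` is at most `ε π(x)`.

(3) If `B (1 - m (1 - 2δ)) > 1`, `δ ≤ 1/2`, then every `φ` has a prime `p ≤ A (1 + log C(φ))^B` with `θ_{φ,p} < δ`. -/
theorem result (hn : 2 ≤ n) :
    (∃ A : ℝ, 0 < A ∧ ∀ (α : Nat.Primes → Fin n → ℂ) (μ : Fin n → ℂ), CuspForm α μ → ∀ x : ℝ, 3 ≤ x →
      (∀ s : Finset Nat.Primes, (∀ p ∈ s, ((p : ℕ) : ℝ) ≤ x) →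
        ∑ p ∈ s, ((p : ℕ) : ℝ) ^ (-(((n / 2 : ℕ) : ℝ) * (1 - 2 * theta α p))) ≤
          A * (Real.log (Real.log x) + Real.log (cond μ))) ∧
      ∀ δ : ℝ, δ ≤ 1 / 2 → (count α δ x : ℝ) ≤
        A * (Real.log (Real.log x) + Real.log (cond μ)) * x ^ (((n / 2 : ℕ) : ℝ) * (1 - 2 * δ))) ∧
    (∀ δ B ε : ℝ, δ ≤ 1 / 2 → 0 < B → 1 < B * (1 - ((n / 2 : ℕ) : ℝ) * (1 - 2 * δ)) → 0 < ε →
      ∃ A : ℝ, 0 < A ∧ ∀ (α : Nat.Primes → Fin n → ℂ) (μ : Fin n → ℂ), CuspForm α μ →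
        ∀ x : ℝ, A * (1 + Real.log (cond μ)) ^ B ≤ x → (count α δ x : ℝ) ≤ ε * (Nat.primeCounting ⌊x⌋₊ : ℝ)) ∧
    ∀ δ B : ℝ, δ ≤ 1 / 2 → 0 < B → 1 < B * (1 - ((n / 2 : ℕ) : ℝ) * (1 - 2 * δ)) →
      ∃ A : ℝ, 0 < A ∧ ∀ (α : Nat.Primes → Fin n → ℂ) (μ : Fin n → ℂ), CuspForm α μ →
        ∃ p : Nat.Primes, ((p : ℕ) : ℝ) ≤ A * (1 + Real.log (cond μ)) ^ B ∧ theta α p < δ := by
  refine ⟨?_, fun δ B ε hδ hB hBe hε => ?_, fun δ B hδ hB hBe => ?_⟩
  · obtain ⟨A, hA0, hA⟩ := Pool.Agent.X309.RN.pgl_uniform hn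
    refine ⟨A, hA0, fun α μ h x hx => ?_⟩
    obtain ⟨h1, h2⟩ := hA α μ h.form h.satake h.langlands x hx
    refine ⟨fun s hs => ?_, fun δ hδ => ?_⟩
    · refine le_trans (le_of_eq (Finset.sum_congr rfl fun p _ => ?_)) (h1 s hs)
      change ((p : ℕ) : ℝ) ^ (-(((n / 2 : ℕ) : ℝ) * (1 - 2 * theta α p))) =
        ((p : ℕ) : ℝ) ^ (2 * ((n / 2 : ℕ) : ℝ) * theta α p - ((n / 2 : ℕ) : ℝ))
      congr 1
      ring
    · have h3 := h2 δ hδ
      rw [show ((n / 2 : ℕ) : ℝ) - 2 * ((n / 2 : ℕ) : ℝ) * δ = ((n / 2 : ℕ) : ℝ) * (1 - 2 * δ) by ring] at h3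
      exact h3
  · obtain ⟨A, hA8, hA⟩ := Pool.Agent.X309.RN.pgl_most hn hδ hB hBe hε
    exact ⟨A, by linarith, fun α μ h x hx => hA α μ h.form h.satake h.langlands x hx⟩
  · obtain ⟨A, hA0, hA⟩ := Pool.Agent.X309.RN.pgl_least_almost hn hδ hB hBe
    exact ⟨A, hA0, fun α μ h => hA α μ h.form h.satake h.langlands⟩

end Pool.Agent.Results.MP_fa98d2_nt.BoundsAtAlmostAllPrimes
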