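import Mathlib
import Pool.Agent.Y816.GL3R.End

/-!
# Spherical cusp forms on `PGL_3` with few tempered primes

Let `φ` be a spherical cusp form on `PGL_3` over `ℚ`, generating the representation `π`, with Satake parameters `α_{i,p}`
and Hecke eigenvalues `λ(p) = ∑_i α_{i,p}`. It is not known that the tempered primes (`θ_{φ,p} = 0`, i.e. `|α_{i,p}| = 1`) have
positive density; one only knows that there are infinitely many (Ramakrishnan), at least `X^c` up to `X`, `c < 1/2`. We
determine what a form with few tempered primes would look like. Suppose that there are at most `C x^c` tempered primes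
`p ≤ x`, for some `c < 1` and all `x ≥ 1`. Then:

1. *Zero-free half-planes.* For every Dirichlet character `χ` of any modulus `L(s, π × χ)` and `L(s, π × π × χ)` are entire
   and **have no zeros in `Re s > (1 + c) / 2`**, and `L(s, π × π~ × χ) = F(s) L(s, χ)` with a function `F` which is
   holomorphic and has no zeros in `Re s > c`. So these `L`-functions satisfy a quasi-Riemann hypothesis.
2. *The Satake parameters.* There are cube roots of unity `ω_p` such that `∑_p |λ(p) + ω_p|² p^{-t}` and
   `∑_p ∑_i (|α_{i,p}| - 1)² p^{-t}` converge for every `t > c`: apart from a sparse set, the Hecke eigenvalues are close to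
   `-1`, `-ω` or `-ω²`, and the parameters to `(u, u, u^{-2})` with `u^3 = -1`.
3. `φ` is not self-dual.

Without any assumption there are cube roots of unity `ω_p` such that
`∑_p |λ(p) + ω_p|² p^{-σ} ≤ 50 ∑_{p tempered} p^{-σ} + O(1)` for `1 < σ ≤ 2`: in the sense of the Dirichlet density, the
mean square distance of the Hecke eigenvalues from the three numbers `-ω`, `ω³ = 1`, is at most `50` times the density
of the tempered primes.

The structure `CuspFormPGL3` (with `SphericalCuspForm` from `SmallEigenvaluesControl`) lists what is used of `φ`: the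
local components are unitary, with trivial central character; the Rankin-Selberg series converges absolutely for
`Re s > 1`; `L(s, π × π~)` is entire except for a simple pole at `s = 1`, of polynomial growth in vertical strips, and
satisfies the functional equation; `L(s, π × χ)` is entire and `L(1, π × χ) ≠ 0` (Godement, Jacquet; Jacquet, Shalika);
`(s - 1) L(s, π × π × χ)` is entire (Jacquet, Piatetski-Shapiro, Shalika).

The proof: a nontempered `π_p` has parameters `(X u, u / X, u^{-2})`, `X > 1`, `|u| = 1`, and all the numbers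
`|∑_i α_{i,p}^k|² - 1` are nonnegative. By Landau's lemma, `log (L(s, π × π~) / ζ(s))` converges absolutely for
`Re s > c`; this gives the assertions on `L(s, π × π~ × χ)` and the local quantities. For the other two `L`-functions one
uses that `t² + conj t`, `t = ∑_i α_{i,p}^k`, is at a nontempered prime bounded by a multiple of the square root of
`|t|² - 1`, so that the product `L(s, π × π × χ) L(s, π~ × χ)` has no zeros in `Re s > (1 + c) / 2`.
-/

set_option autoImplicit false

namespace Pool.Agent.Results.MP_fa98d2_nt.FewTemperedPrimes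

open Pool.Agent.Y816.GL3R
open Pool.Agent.TH949.RES (SphericalCuspForm rs d1)
open Pool.Agent.W189.TP (PS LL)

variable {α : Nat.Primes → Fin 3 → ℂ} {μ : Fin 3 → ℂ}

/-- the number of the tempered primes `p ≤ x` -/
noncomputable def temperedCount (α : Nat.Primes → Fin 3 → ℂ) (x : ℝ) : ℕ :=
  {p : Nat.Primes | ((p : ℕ) : ℝ) ≤ x ∧ ∀ i, ‖α p i‖ = 1}.ncard

/-- **Spherical cusp forms on `PGL_3` with few tempered primes.** -/
theorem result (h : CuspFormPGL3 α μ) :
    ∃ ω : Nat.Primes → ℂ, (∀ p, ω p ^ 3 = 1) ∧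
      (∃ C : ℝ, ∀ σ : ℝ, 1 < σ → σ ≤ 2 →
        (Summable fun p : Nat.Primes => ‖∑ i, α p i + ω p‖ ^ 2 * ((p : ℕ) : ℝ) ^ (-σ)) ∧
        ∑' p : Nat.Primes, ‖∑ i, α p i + ω p‖ ^ 2 * ((p : ℕ) : ℝ) ^ (-σ) ≤
          50 * ∑' p : {p : Nat.Primes // ∀ i, ‖α p i‖ = 1}, ((p.1 : ℕ) : ℝ) ^ (-σ) + C) ∧
      ∀ c C : ℝ, c < 1 → (∀ x : ℝ, 1 ≤ x → (temperedCount α x : ℝ) ≤ C * x ^ c) →
        (∀ t : ℝ, c < t → (Summable fun p : Nat.Primes => ‖∑ i, α p i + ω p‖ ^ 2 * ((p : ℕ) : ℝ) ^ (-t)) ∧
          Summable fun p : Nat.Primes => (∑ i, (‖α p i‖ - 1) ^ 2) * ((p : ℕ) : ℝ) ^ (-t)) ∧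
        (∀ (q : ℕ) [NeZero q] (χ : DirichletCharacter ℂ q),
          (∃ E : ℂ → ℂ, Differentiable ℂ E ∧ (∀ s : ℂ, 1 < s.re → E s = Complex.exp (logE χ (tr α) s)) ∧
            ∀ s : ℂ, (1 + c) / 2 < s.re → E s ≠ 0) ∧
          (∃ H : ℂ → ℂ, Differentiable ℂ H ∧
            (∀ s : ℂ, 1 < s.re → H s = Complex.exp (logE χ (fun p k => tr α p k ^ 2) s)) ∧
            ∀ s : ℂ, (1 + c) / 2 < s.re → H s ≠ 0) ∧
          ∃ F : ℂ → ℂ, DifferentiableOn ℂ F {s | c < s.re} ∧ (∀ s : ℂ, c < s.re → F s ≠ 0) ∧
            ∀ s : ℂ, 1 < s.re → F s * DirichletCharacter.LFunction χ s =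
              Complex.exp (logE χ (fun p k => ((‖tr α p k‖ ^ 2 : ℝ) : ℂ)) s)) ∧
        ¬ ∀ p, ∃ τ : Equiv.Perm (Fin 3), ∀ i, α p (τ i) = (α p i)⁻¹ := by
  obtain ⟨ω, hω, hω1, hω2⟩ := roots h
  refine ⟨ω, hω, ?_, fun c C hc1 hcount => ?_⟩
  · refine density h.toSphericalCuspForm (A := 34) (B := 50) (by norm_num) (fun p => by positivity) fun p => ?_
    rw [d1_zero]
    unfold ind
    have h1 : 0 ≤ ‖∑ i, α p.1 i‖ ^ 2 := by positivity
    split_ifs with hp
    · linarith [hω1 p.1 hp]
    · linarith [hω2 p.1 hp]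
  · obtain ⟨-, hd, hT, G, hG, hG1, hG2⟩ := landau3 h (of_count hcount)
    refine ⟨fun t ht => ⟨?_, ?_⟩, fun q _ χ => ⟨?_, ?_, ?_⟩, ?_⟩
    · exact summable_first (C := 34) (by norm_num) (fun p => by positivity)
        (fun p hp => (hω1 p hp).trans (by norm_num)) hω2 hd hT ht
    · exact summable_first (C := 1) (by norm_num) (fun p => by positivity)
        (fun p hp => by rw [tmp_sum hp]; norm_num) (fun p hp => by
          rw [one_mul]
          exact (local2 h hp).1) hd hT ht
    · exact nonvanishing' h χ hc1 hd hT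
    · obtain ⟨_, H, _, hH, _, hH1, hH2⟩ := nonvanishing h χ hc1 hd hT
      exact ⟨H, hH, hH1, fun s hs => (hH2 s hs).2⟩
    · exact adjoint h.toSphericalCuspForm χ hd
    · exact not_selfdual h hc1 hd hT hG hG1 hG2

end Pool.Agent.Results.MP_fa98d2_nt.FewTemperedPrimes
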