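import Pool.Agent.X289.RSD

/-!
# Many cusp forms on `PGL(2)` with large Hecke eigenvalues of given signs at the same prime

Let `φ_1, ..., φ_r` be cusp forms on `PGL_2` over a number field `K`, unramified outside the finite set `S` of
places, with Hecke eigenvalues `λ_k(v) = a_k + a_k⁻¹`, and let the symmetric powers `Sym^i φ_k`, `i ≤ 4`
(Gelbart-Jacquet, Kim-Shahidi, Kim) and the products `φ_j ⊠ φ_k`, `j < k` (Ramakrishnan) be cuspidal and
pairwise not isomorphic.  For `K = ℚ`, `S = ∅` this holds for ANY `r` different spherical cusp forms on `PGL_2`: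
such a form is not dihedral, tetrahedral or octahedral, no two are twists of each other, and the exterior square
of `φ_j ⊠ φ_k` is `Ad φ_j ⊞ Ad φ_k`, that of `Sym³ φ` is `Sym⁴ φ ⊞ 1`.

The conjecture of Ramanujan says `|λ_k(v)| ≤ 2`.  For ONE form the set of the `v` with `|λ(v)| > 2` is known to
have upper density at most `1/35` (Kim-Shahidi).  If nothing is used but the symmetric powers of the forms, the
bound for the places at which `r` forms violate the conjecture is of the order `1/r`.  Here the products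
`φ_j ⊠ φ_k` are used, and the bound is of the order `1/r²` if the signs of the eigenvalues are given:

* the places `v` with `ε_k λ_k(v) ≥ T_k` for all `k`, where `ε_k = ± 1` and `T_k ≥ (1 + √5)/2`, have upper density
  at most `1 / (1 + ∑_k (T_k² + (T_k² - 1)² + (T_k³ - 2 T_k)² + (T_k⁴ - 3 T_k² + 1)²) + ∑_{j<k} T_j² T_k²)`;
* so the places at which all `r` forms violate the conjecture with given signs have upper density at most
  `1 / (8 r² + 46 r + 1)`;
* for `y² > r` the places with `|λ_1(v) + ... + λ_r(v)| ≥ y` have upper density at most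
  `(2 r² - r) / (2 r² - r + (y² - r)²)`; for `y = c r` this is of the order `2 / (c⁴ r²)`.

Only the known facts on the poles of the Rankin-Selberg products of the listed representations are used; they
are collected in the structure `Forms`.  (The joint law of three or more forms is not known even for holomorphic
forms; the products `φ_j ⊠ φ_k` give the mean values of `λ_1 λ_2 λ_3 λ_4`.)
-/

set_option autoImplicit false
set_option linter.unnecessarySeqFocus false

namespace Pool.Agent.Results.MP_fa98d2_nt.PrescribedSigns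

open NumberField IsDedekindDomain Filter Topology
open scoped ComplexConjugate

/-- The norm of the place `v`. -/
noncomputable def q {K : Type} [Field K] [NumberField K] (v : HeightOneSpectrum (𝓞 K)) : ℕ :=
  Ideal.absNorm v.asIdeal

/-- The finite places outside `S`. -/
abbrev Places {K : Type} [Field K] [NumberField K] (S : Finset (HeightOneSpectrum (𝓞 K))) :=
  {v : HeightOneSpectrum (𝓞 K) // v ∉ S}

/-- The list of representations: `1`, the `Sym^{i+1} φ_k` with `i < 4`, and the `φ_j ⊠ φ_k` with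
`j < k`. -/
abbrev Rep (r : ℕ) := Unit ⊕ (Fin r × Fin 4) ⊕ {p : Fin r × Fin r // p.1 < p.2}

/-- The degree. -/
def deg {r : ℕ} : Rep r → ℕ
  | Sum.inl _ => 1
  | Sum.inr (Sum.inl x) => x.2 + 2
  | Sum.inr (Sum.inr _) => 4

section

variable {K : Type} [Field K] [NumberField K] {S : Finset (HeightOneSpectrum (𝓞 K))} {r : ℕ}

/-- The Satake parameters of the representations, `a_k^{±1}` being the ones of `φ_k`: for `1` it is `1`; for
`Sym^i φ_k` they are `a_k^i, a_k^{i-2}, ..., a_k^{-i}`, and for `φ_j ⊠ φ_k` they are `a_j^{±1} a_k^{±1}`. -/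
noncomputable def par (a : Fin r → Places S → ℂ) : (ρ : Rep r) → Places S → Fin (deg ρ) → ℂ
  | Sum.inl _, _ => fun _ => 1
  | Sum.inr (Sum.inl x), v => fun l => a x.1 v ^ ((x.2 : ℤ) + 1 - 2 * (l : ℕ))
  | Sum.inr (Sum.inr p), v => fun l => ![a p.1.1 v * a p.1.2 v, a p.1.1 v * (a p.1.2 v)⁻¹,
      (a p.1.1 v)⁻¹ * a p.1.2 v, (a p.1.1 v)⁻¹ * (a p.1.2 v)⁻¹] l

/-- The local factor of `L^S(s, ρ × ρ'~)` at `v`. -/
noncomputable def factor (a : Fin r → Places S → ℂ) (ρ ρ' : Rep r) (s : ℂ) (v : Places S) : ℂ :=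
  ∏ l, ∏ m, (1 - par a ρ v l * conj (par a ρ' v m) * (q v.1 : ℂ) ^ (-s))⁻¹

/-- What is used of the forms `φ_k` with the Satake parameters `a_k, a_k⁻¹`. -/
structure Forms (a : Fin r → Places S → ℂ) : Prop where
  /-- the components are unitary -/
  unitary : ∀ k v, a k v ≠ 0 ∧ (‖a k v‖ = 1 ∨ (a k v).im = 0)
  /-- the bound of Jacquet and Shalika for `Sym⁴ φ_k` -/
  bound : ∀ k v, ‖a k v‖ ^ 8 < q v.1 ∧ ‖(a k v)⁻¹‖ ^ 8 < q v.1
  /-- the Euler products of Rankin and Selberg converge for real `s > 1` -/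
  conv : ∀ (ρ ρ' : Rep r) (s : ℝ), 1 < s → Multipliable (factor a ρ ρ' s)
  /-- they have meromorphic continuations to neighbourhoods of `s = 1`, with a simple pole if `ρ = ρ'` and without
  zero and pole otherwise -/
  pole : ∀ ρ ρ' : Rep r, ∃ Λ : ℂ → ℂ, MeromorphicAt Λ 1 ∧
    meromorphicOrderAt Λ 1 = ((-(if ρ = ρ' then 1 else 0) : ℤ) : WithTop ℤ) ∧
    ∀ᶠ s in 𝓝 (1 : ℂ), (1 : ℝ) < s.re → Λ s = ∏' v, factor a ρ ρ' s v

/-- The Hecke eigenvalue `λ_k(v) = a_k + a_k⁻¹`, a real number. -/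
noncomputable def lam (a : Fin r → Places S → ℂ) (k : Fin r) (v : Places S) : ℝ :=
  (a k v + (a k v)⁻¹).re

/-- The set `B` of places has upper density at most `d`:
`∑_{v ∈ B} (N v)^{-s} ≤ (d + ε) log (1 / (s - 1))` for every `ε > 0` and all real `s > 1` close to `1`. -/
def UpperDensityLe (B : Set (Places S)) (d : ℝ) : Prop :=
  ∀ ε : ℝ, 0 < ε → ∀ᶠ s : ℝ in 𝓝[>] 1,
    (Summable (B.indicator fun v => (q v.1 : ℝ) ^ (-s))) ∧
    ∑' v, B.indicator (fun v => (q v.1 : ℝ) ^ (-s)) v ≤ (d + ε) * Real.log (1 / (s - 1))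

/-- `T² + (T² - 1)² + (T³ - 2 T)² + (T⁴ - 3 T² + 1)²`. -/
def W (T : ℝ) : ℝ := T ^ 2 + (T ^ 2 - 1) ^ 2 + (T ^ 3 - 2 * T) ^ 2 + (T ^ 4 - 3 * T ^ 2 + 1) ^ 2

/-- The polynomials `U_i(x/2)`, `i = 1, 2, 3, 4`. -/
def U (i : Fin 4) (x : ℝ) : ℝ := ![x, x ^ 2 - 1, x ^ 3 - 2 * x, x ^ 4 - 3 * x ^ 2 + 1] i

theorem q_gt (v : Places S) : 1 < q v.1 := by
  unfold q
  have h1 := Ideal.absNorm_ne_zero_of_nonZeroDivisors
    ⟨v.1.asIdeal, mem_nonZeroDivisors_of_ne_zero v.1.ne_bot⟩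
  have h2 : Ideal.absNorm v.1.asIdeal ≠ 1 := fun h =>
    v.1.isPrime.ne_top (Ideal.absNorm_eq_one_iff.1 h)
  simp only at h1
  omega

theorem lam_eq {a : Fin r → Places S → ℂ} (h : Forms a) (k : Fin r) (v : Places S) :
    a k v + (a k v)⁻¹ = (lam a k v : ℂ) := by
  unfold lam
  apply Complex.ext
  · simp
  · rw [Complex.ofReal_im, Complex.add_im, Complex.inv_im]
    rcases (h.unitary k v).2 with h1 | h1
    · rw [Complex.normSq_eq_norm_sq, h1]
      ring
    · rw [h1]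
      simp

theorem tr_one (a : Fin r → Places S → ℂ) (u : Unit) (v : Places S) :
    ∑ l, par a (Sum.inl u) v l = 1 := by
  change ∑ _l : Fin 1, (1 : ℂ) = 1
  simp

theorem tr_sym {a : Fin r → Places S → ℂ} (h : Forms a) (x : Fin r × Fin 4) (v : Places S) :
    ∑ l, par a (Sum.inr (Sum.inl x)) v l = (U x.2 (lam a x.1 v) : ℂ) := by
  obtain ⟨k, i⟩ := x
  have h0 := (h.unitary k v).1
  have h1 := lam_eq h k v
  change ∑ l : Fin ((i : ℕ) + 2), a k v ^ (((i : ℕ) : ℤ) + 1 - 2 * ((l : ℕ) : ℤ)) =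
    ((U i (lam a k v) : ℝ) : ℂ)
  set t := a k v with ht
  unfold U
  fin_cases i
  · change ∑ l : Fin 2, t ^ (((0 : ℕ) : ℤ) + 1 - 2 * ((l : ℕ) : ℤ)) = ((lam a k v : ℝ) : ℂ)
    rw [← h1, Fin.sum_univ_two]
    norm_num
  · change ∑ l : Fin 3, t ^ (((1 : ℕ) : ℤ) + 1 - 2 * ((l : ℕ) : ℤ)) =
      ((lam a k v ^ 2 - 1 : ℝ) : ℂ)
    push_cast
    rw [← h1, Fin.sum_univ_three]
    norm_num
    field_simp
    ring
  · change ∑ l : Fin 4, t ^ (((2 : ℕ) : ℤ) + 1 - 2 * ((l : ℕ) : ℤ)) =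
      ((lam a k v ^ 3 - 2 * lam a k v : ℝ) : ℂ)
    push_cast
    rw [← h1, Fin.sum_univ_four]
    norm_num
    field_simp
    ring
  · change ∑ l : Fin 5, t ^ (((3 : ℕ) : ℤ) + 1 - 2 * ((l : ℕ) : ℤ)) =
      ((lam a k v ^ 4 - 3 * lam a k v ^ 2 + 1 : ℝ) : ℂ)
    push_cast
    rw [← h1, Fin.sum_univ_five]
    norm_num
    field_simp
    ring

theorem tr_prod {a : Fin r → Places S → ℂ} (h : Forms a)
    (p : {p : Fin r × Fin r // p.1 < p.2}) (v : Places S) :
    ∑ l, par a (Sum.inr (Sum.inr p)) v l = ((lam a p.1.1 v * lam a p.1.2 v : ℝ) : ℂ) := by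
  push_cast
  rw [← lam_eq h, ← lam_eq h]
  change ∑ l : Fin 4, (![a p.1.1 v * a p.1.2 v, a p.1.1 v * (a p.1.2 v)⁻¹,
      (a p.1.1 v)⁻¹ * a p.1.2 v, (a p.1.1 v)⁻¹ * (a p.1.2 v)⁻¹] : Fin 4 → ℂ) l = _
  rw [Fin.sum_univ_four]
  simp
  ring

theorem par_bound {a : Fin r → Places S → ℂ} (h : Forms a) (ρ : Rep r) (v : Places S) (l) :
    ‖par a ρ v l‖ ^ 2 < q v.1 := by
  have hq : (1 : ℝ) < q v.1 := by exact_mod_cast q_gt v
  have hz : ∀ (z : ℝ), 0 < z → z ^ 8 < q v.1 → ∀ j : ℕ, j ≤ 4 → (z ^ j) ^ 2 < q v.1 := by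
    intro z hz hz4 j hj
    rw [← pow_mul]
    rcases le_or_gt z 1 with h6 | h6
    · exact (pow_le_one₀ hz.le h6).trans_lt hq
    · exact (pow_le_pow_right₀ h6.le (by omega)).trans_lt hz4
  have key : ∀ (k : Fin r) (n : ℤ), n.natAbs ≤ 4 → ‖a k v ^ n‖ ^ 2 < q v.1 := by
    intro k n hn
    obtain ⟨h1, h2⟩ := h.bound k v
    have h0 : 0 < ‖a k v‖ := norm_pos_iff.2 (h.unitary k v).1
    rw [norm_inv] at h2
    rw [norm_zpow]
    rcases Int.natAbs_eq n with h6 | h6
    · rw [h6, zpow_natCast]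
      exact hz _ h0 h1 _ hn
    · rw [h6, zpow_neg, zpow_natCast, ← inv_pow]
      exact hz _ (inv_pos.2 h0) h2 _ hn
  -- the parameter of `φ_k` and its inverse have fourth powers less than `√q`
  have key4 : ∀ (k : Fin r), (‖a k v‖ ^ 2) ^ 2 < q v.1 ∧ (‖(a k v)⁻¹‖ ^ 2) ^ 2 < q v.1 := by
    intro k
    obtain ⟨h1, h2⟩ := h.bound k v
    have h0 : 0 < ‖a k v‖ := norm_pos_iff.2 (h.unitary k v).1
    have h00 : 0 < ‖(a k v)⁻¹‖ := norm_pos_iff.2 (inv_ne_zero (h.unitary k v).1)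
    exact ⟨hz _ h0 h1 2 (by norm_num), hz _ h00 h2 2 (by norm_num)⟩
  have hmul : ∀ x y : ℂ, (‖x‖ ^ 2) ^ 2 < q v.1 → (‖y‖ ^ 2) ^ 2 < q v.1 →
      ‖x * y‖ ^ 2 < q v.1 := by
    intro x y hx hy
    rw [norm_mul, mul_pow]
    nlinarith [sq_nonneg (‖x‖ ^ 2 - ‖y‖ ^ 2), sq_nonneg ‖x‖, sq_nonneg ‖y‖]
  rcases ρ with u | x | p
  · change ‖(1 : ℂ)‖ ^ 2 < _
    rw [norm_one, one_pow]
    exact hq
  · obtain ⟨k, i⟩ := x
    change ‖a k v ^ ((i : ℤ) + 1 - 2 * ((l : ℕ) : ℤ))‖ ^ 2 < _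
    refine key _ _ ?_
    have h1 := i.2
    have h2 : (l : ℕ) < (i : ℕ) + 2 := l.2
    omega
  · obtain ⟨k1, k1'⟩ := key4 p.1.1
    obtain ⟨k2, k2'⟩ := key4 p.1.2
    change ‖(![a p.1.1 v * a p.1.2 v, a p.1.1 v * (a p.1.2 v)⁻¹,
      (a p.1.1 v)⁻¹ * a p.1.2 v, (a p.1.1 v)⁻¹ * (a p.1.2 v)⁻¹] : Fin 4 → ℂ) l‖ ^ 2 < _
    have hall : ∀ l : Fin 4, ‖(![a p.1.1 v * a p.1.2 v, a p.1.1 v * (a p.1.2 v)⁻¹,
      (a p.1.1 v)⁻¹ * a p.1.2 v, (a p.1.1 v)⁻¹ * (a p.1.2 v)⁻¹] : Fin 4 → ℂ) l‖ ^ 2 < q v.1 := by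
      intro l
      fin_cases l
      · exact hmul _ _ k1 k2
      · exact hmul _ _ k1 k2'
      · exact hmul _ _ k1' k2
      · exact hmul _ _ k1' k2'
    exact hall l

/-- the density bound -/
theorem dens {a : Fin r → Places S → ℂ} (h : Forms a) (c₀ : ℝ) (c : Fin r → Fin 4 → ℝ)
    (d : Fin r → Fin r → ℝ) {B : Set (Places S)} {X : ℝ} (hX : 0 < X)
    (hB : ∀ v ∈ B, X ≤ c₀ + ∑ k, ∑ i, c k i * U i (lam a k v) +
      ∑ p : {p : Fin r × Fin r // p.1 < p.2}, d p.1.1 p.1.2 * (lam a p.1.1 v * lam a p.1.2 v)) :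
    UpperDensityLe B ((c₀ ^ 2 + ∑ k, ∑ i, c k i ^ 2 +
      ∑ p : {p : Fin r × Fin r // p.1 < p.2}, d p.1.1 p.1.2 ^ 2) / X ^ 2) := by
  classical
  set C : Rep r → ℝ := Sum.elim (fun _ => c₀) (Sum.elim (fun x => c x.1 x.2)
    fun p => d p.1.1 p.1.2) with hC
  have h4 := Pool.Agent.X289.RSD.density (q := fun v : Places S => q v.1) (q_gt)
    (A := fun ρ v => par a ρ v) (par_bound h) (fun ρ ρ' s hs => h.conv ρ ρ' s hs)
    (e := fun ρ ρ' => if ρ = ρ' then 1 else 0) h.pole C (B := B) hX fun v hv => by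
      have e1 : ∑ ρ, (C ρ : ℂ) * ∑ l, par a ρ v l = ((c₀ + ∑ k, ∑ i, c k i * U i (lam a k v) +
          ∑ p : {p : Fin r × Fin r // p.1 < p.2}, d p.1.1 p.1.2 *
            (lam a p.1.1 v * lam a p.1.2 v) : ℝ) : ℂ) := by
        rw [Fintype.sum_sum_type, Fintype.sum_sum_type]
        simp only [tr_one, tr_sym h, tr_prod h, hC, Sum.elim_inl, Sum.elim_inr]
        rw [Fintype.sum_prod_type]
        push_cast
        simp only [Finset.univ_unique, Finset.sum_singleton, mul_one]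
        ring
      rw [e1, Complex.norm_real]
      exact (hB v hv).trans (le_abs_self _)
  have e2 : ∑ ρ : Rep r, ∑ ρ' : Rep r, C ρ * C ρ' * ((if ρ = ρ' then 1 else 0 : ℤ) : ℝ) =
      c₀ ^ 2 + ∑ k, ∑ i, c k i ^ 2 +
        ∑ p : {p : Fin r × Fin r // p.1 < p.2}, d p.1.1 p.1.2 ^ 2 := by
    have e3 : ∀ ρ : Rep r, ∑ ρ' : Rep r, C ρ * C ρ' * ((if ρ = ρ' then 1 else 0 : ℤ) : ℝ) =
        C ρ ^ 2 := by
      intro ρ
      rw [Finset.sum_eq_single ρ]
      · simp
        ring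
      · intro ρ' _ hne
        rw [if_neg (Ne.symm hne)]
        simp
      · intro hne
        exact absurd (Finset.mem_univ _) hne
    simp only [e3]
    rw [Fintype.sum_sum_type, Fintype.sum_sum_type, Fintype.sum_prod_type]
    simp only [hC, Sum.elim_inl, Sum.elim_inr, Finset.univ_unique, Finset.sum_singleton]
    ring
  rw [e2] at h4
  exact h4

theorem U_mono {T x : ℝ} (hT : (1 + √5) / 2 ≤ T) (hx : T ≤ x) (i : Fin 4) :
    0 ≤ U i T ∧ U i T ≤ U i x := by
  have h5 : (√5) ^ 2 = 5 := Real.sq_sqrt (by norm_num)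
  have h50 : 0 ≤ √5 := Real.sqrt_nonneg 5
  have h2 : (2 : ℝ) < √5 := by
    rw [Real.lt_sqrt (by norm_num)]
    norm_num
  have hT0 : (3 / 2 : ℝ) < T := by linarith
  have hT2 : T + 1 ≤ T ^ 2 := by
    have h6 : 0 ≤ (T - (1 + √5) / 2) * (T - (1 - √5) / 2) :=
      mul_nonneg (by linarith) (by linarith)
    nlinarith
  have hxx : T ^ 2 ≤ x ^ 2 := pow_le_pow_left₀ (by linarith) hx 2
  unfold U
  fin_cases i
  · exact ⟨by simp; linarith, by simpa using hx⟩
  · refine ⟨?_, ?_⟩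
    · change 0 ≤ T ^ 2 - 1
      nlinarith
    · change T ^ 2 - 1 ≤ x ^ 2 - 1
      linarith
  · refine ⟨?_, ?_⟩
    · change 0 ≤ T ^ 3 - 2 * T
      have : T ^ 3 - 2 * T = T * (T ^ 2 - 2) := by ring
      rw [this]
      exact mul_nonneg (by linarith) (by linarith)
    · change T ^ 3 - 2 * T ≤ x ^ 3 - 2 * x
      have e : (x ^ 3 - 2 * x) - (T ^ 3 - 2 * T) = (x - T) * (x ^ 2 + x * T + T ^ 2 - 2) := by ring
      have h6 : 0 ≤ (x - T) * (x ^ 2 + x * T + T ^ 2 - 2) :=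
        mul_nonneg (by linarith) (by nlinarith)
      linarith
  · refine ⟨?_, ?_⟩
    · change 0 ≤ T ^ 4 - 3 * T ^ 2 + 1
      have : T ^ 4 - 3 * T ^ 2 + 1 = (T ^ 2 - T - 1) * (T ^ 2 + T - 1) := by ring
      rw [this]
      exact mul_nonneg (by linarith) (by nlinarith)
    · change T ^ 4 - 3 * T ^ 2 + 1 ≤ x ^ 4 - 3 * x ^ 2 + 1
      have e : (x ^ 4 - 3 * x ^ 2 + 1) - (T ^ 4 - 3 * T ^ 2 + 1) =
        (x ^ 2 - T ^ 2) * (x ^ 2 + T ^ 2 - 3) := by ring
      have h6 : 0 ≤ (x ^ 2 - T ^ 2) * (x ^ 2 + T ^ 2 - 3) :=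
        mul_nonneg (by linarith) (by nlinarith)
      linarith

theorem U_sign {ε : ℝ} (hε : ε = 1 ∨ ε = -1) (i : Fin 4) (x : ℝ) :
    U i (ε * x) = ε ^ ((i : ℕ) + 1) * U i x := by
  unfold U
  rcases hε with rfl | rfl <;> fin_cases i <;> norm_num <;> ring

theorem W_eq (T : ℝ) : W T = ∑ i, U i T ^ 2 := by
  unfold W U
  rw [Fin.sum_univ_four]
  rfl

theorem signs_bound {a : Fin r → Places S → ℂ} (h : Forms a) {ε T : Fin r → ℝ}
    (hε : ∀ k, ε k = 1 ∨ ε k = -1) (hT : ∀ k, (1 + √5) / 2 ≤ T k) :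
    UpperDensityLe {v | ∀ k, T k ≤ ε k * lam a k v}
      (1 / (1 + ∑ k, W (T k) +
        ∑ p : {p : Fin r × Fin r // p.1 < p.2}, (T p.1.1 * T p.1.2) ^ 2)) := by
  have h5 : 0 ≤ √5 := Real.sqrt_nonneg 5
  set X : ℝ := 1 + ∑ k, W (T k) +
    ∑ p : {p : Fin r × Fin r // p.1 < p.2}, (T p.1.1 * T p.1.2) ^ 2 with hXd
  have hX : 0 < X := by
    have h1 : 0 ≤ ∑ k, W (T k) := Finset.sum_nonneg fun k _ => by
      rw [W_eq]
      positivity
    positivity
  have hT0 : ∀ k, 0 < T k := fun k => lt_of_lt_of_le (by positivity) (hT k)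
  have hsq : ∀ k, ε k * ε k = 1 := fun k => by rcases hε k with h | h <;> rw [h] <;> norm_num
  have h1 := dens h 1 (fun k i => ε k ^ ((i : ℕ) + 1) * U i (T k))
    (fun j k => ε j * ε k * (T j * T k)) (B := {v | ∀ k, T k ≤ ε k * lam a k v}) hX
    fun v hv => by
      have h2 : ∀ k, W (T k) ≤ ∑ i, (ε k ^ (((i : Fin 4) : ℕ) + 1) * U i (T k)) *
          U i (lam a k v) := by
        intro k
        rw [W_eq]
        refine Finset.sum_le_sum fun i _ => ?_
        obtain ⟨h3, h4⟩ := U_mono (hT k) (hv k) i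
        rw [U_sign (hε k)] at h4
        calc U i (T k) ^ 2 = U i (T k) * U i (T k) := by ring
          _ ≤ U i (T k) * (ε k ^ ((i : ℕ) + 1) * U i (lam a k v)) :=
            mul_le_mul_of_nonneg_left h4 h3
          _ = _ := by ring
      have h3 : ∀ p : {p : Fin r × Fin r // p.1 < p.2}, (T p.1.1 * T p.1.2) ^ 2 ≤
          ε p.1.1 * ε p.1.2 * (T p.1.1 * T p.1.2) * (lam a p.1.1 v * lam a p.1.2 v) := by
        intro p
        have h4 := hv p.1.1
        have h5 := hv p.1.2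
        have h6 : T p.1.1 * T p.1.2 ≤ (ε p.1.1 * lam a p.1.1 v) * (ε p.1.2 * lam a p.1.2 v) :=
          mul_le_mul h4 h5 (hT0 _).le ((hT0 _).le.trans h4)
        calc (T p.1.1 * T p.1.2) ^ 2 = (T p.1.1 * T p.1.2) * (T p.1.1 * T p.1.2) := by ring
          _ ≤ (T p.1.1 * T p.1.2) * ((ε p.1.1 * lam a p.1.1 v) * (ε p.1.2 * lam a p.1.2 v)) :=
            mul_le_mul_of_nonneg_left h6 (mul_pos (hT0 _) (hT0 _)).le
          _ = _ := by ring
      have h4 := Finset.sum_le_sum fun k (_ : k ∈ Finset.univ) => h2 k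
      have h5 := Finset.sum_le_sum fun p (_ : p ∈ Finset.univ) => h3 p
      rw [hXd]
      linarith
  have e : (1 : ℝ) ^ 2 + ∑ k, ∑ i, (ε k ^ (((i : Fin 4) : ℕ) + 1) * U i (T k)) ^ 2 +
      ∑ p : {p : Fin r × Fin r // p.1 < p.2}, (ε p.1.1 * ε p.1.2 * (T p.1.1 * T p.1.2)) ^ 2 =
      X := by
    rw [hXd, one_pow]
    congr 1
    · congr 1
      refine Finset.sum_congr rfl fun k _ => ?_
      rw [W_eq]
      refine Finset.sum_congr rfl fun i _ => ?_
      rw [mul_pow, ← pow_mul, mul_comm ((i : ℕ) + 1) 2, pow_mul, sq, hsq, one_pow, one_mul]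
    · refine Finset.sum_congr rfl fun p _ => ?_
      have := hsq p.1.1
      have := hsq p.1.2
      calc (ε p.1.1 * ε p.1.2 * (T p.1.1 * T p.1.2)) ^ 2 =
          (ε p.1.1 * ε p.1.1) * (ε p.1.2 * ε p.1.2) * (T p.1.1 * T p.1.2) ^ 2 := by ring
        _ = _ := by rw [hsq, hsq]; ring
  rw [e] at h1
  have e2 : X / X ^ 2 = 1 / X := by
    field_simp
  rw [e2] at h1
  exact h1

theorem card_pairs (r : ℕ) :
    (Fintype.card {p : Fin r × Fin r // p.1 < p.2} : ℝ) = (r : ℝ) * (r - 1) / 2 := by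
  have h1 : Fintype.card {p : Fin r × Fin r // p.1 < p.2} +
      Fintype.card {p : Fin r × Fin r // p.1 < p.2} + r = r * r := by
    have e1 : Fintype.card {p : Fin r × Fin r // p.1 < p.2} =
        (Finset.univ.filter fun p : Fin r × Fin r => p.1 < p.2).card := Fintype.card_subtype _
    have e2 : (Finset.univ.filter fun p : Fin r × Fin r => p.1 < p.2).card =
        (Finset.univ.filter fun p : Fin r × Fin r => p.2 < p.1).card := by
      refine Finset.card_bij (fun p _ => (p.2, p.1)) ?_ ?_ ?_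
      · intro p hp
        simpa using hp
      · rintro ⟨a, b⟩ _ ⟨c, d⟩ _ h
        simp only [Prod.mk.injEq] at h
        rw [h.1, h.2]
      · rintro ⟨a, b⟩ hp
        exact ⟨(b, a), by simpa using hp, rfl⟩
    have e3 : (Finset.univ.filter fun p : Fin r × Fin r => p.1 = p.2).card = r := by
      have : (Finset.univ.filter fun p : Fin r × Fin r => p.1 = p.2) =
          Finset.univ.map ⟨fun a : Fin r => (a, a), fun a b h => (Prod.mk.inj h).1⟩ := by
        ext ⟨a, b⟩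
        simp only [Finset.mem_filter, Finset.mem_univ, true_and, Finset.mem_map]
        constructor
        · rintro rfl
          exact ⟨a, rfl⟩
        · rintro ⟨c, h⟩
          have h2 := Prod.mk.inj h
          exact h2.1.symm.trans h2.2
      rw [this, Finset.card_map, Finset.card_univ, Fintype.card_fin]
    have e4 : (Finset.univ : Finset (Fin r × Fin r)) =
        ((Finset.univ.filter fun p : Fin r × Fin r => p.1 < p.2) ∪
          (Finset.univ.filter fun p : Fin r × Fin r => p.2 < p.1)) ∪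
          (Finset.univ.filter fun p : Fin r × Fin r => p.1 = p.2) := by
      ext p
      simp only [Finset.mem_univ, Finset.mem_union, Finset.mem_filter, true_and, true_iff]
      rcases lt_trichotomy p.1 p.2 with h | h | h
      · exact Or.inl (Or.inl h)
      · exact Or.inr h
      · exact Or.inl (Or.inr h)
    have e5 : (Finset.univ : Finset (Fin r × Fin r)).card = r * r := by
      rw [Finset.card_univ, Fintype.card_prod, Fintype.card_fin]
    rw [e4, Finset.card_union_of_disjoint, Finset.card_union_of_disjoint] at e5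
    · rw [← e2, ← e1, e3] at e5
      exact e5
    · rw [Finset.disjoint_filter]
      intro p _ h
      exact not_lt.2 h.le
    · rw [Finset.disjoint_left]
      intro p hp
      simp only [Finset.mem_union, Finset.mem_filter, Finset.mem_univ, true_and] at hp ⊢
      rcases hp with h | h
      · exact h.ne
      · exact h.ne'
  have h2 : (Fintype.card {p : Fin r × Fin r // p.1 < p.2} : ℝ) +
      Fintype.card {p : Fin r × Fin r // p.1 < p.2} + r = r * r := by exact_mod_cast h1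
  linarith

/-- the square of the sum of the eigenvalues -/
theorem sum_sq (x : Fin r → ℝ) : (∑ k, x k) ^ 2 =
    ∑ k, x k ^ 2 + 2 * ∑ p : {p : Fin r × Fin r // p.1 < p.2}, x p.1.1 * x p.1.2 := by
  have e1 : ∑ p : {p : Fin r × Fin r // p.1 < p.2}, x p.1.1 * x p.1.2 =
      ∑ p ∈ (Finset.univ.filter fun p : Fin r × Fin r => p.1 < p.2), x p.1 * x p.2 := by
    rw [Finset.sum_subtype (p := fun p : Fin r × Fin r => p.1 < p.2)]
    intro p
    simp
  rw [e1, Finset.sum_filter, Fintype.sum_prod_type, sq, Finset.sum_mul_sum, two_mul]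
  have e2 : ∑ i, ∑ j, (if i < j then x i * x j else 0) =
      ∑ i, ∑ j, (if j < i then x i * x j else 0) := by
    rw [Finset.sum_comm]
    refine Finset.sum_congr rfl fun i _ => Finset.sum_congr rfl fun j _ => ?_
    split_ifs
    · ring
    · rfl
  nth_rewrite 2 [e2]
  have e3 : ∑ k, x k ^ 2 = ∑ i, ∑ j, (if i = j then x i * x j else 0) := by
    refine Finset.sum_congr rfl fun i _ => ?_
    rw [Finset.sum_ite_eq Finset.univ i fun j => x i * x j, if_pos (Finset.mem_univ i)]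
    ring
  rw [e3, ← Finset.sum_add_distrib, ← Finset.sum_add_distrib]
  refine Finset.sum_congr rfl fun i _ => ?_
  rw [← Finset.sum_add_distrib, ← Finset.sum_add_distrib]
  refine Finset.sum_congr rfl fun j _ => ?_
  rcases lt_trichotomy i j with h | h | h
  · rw [if_neg h.ne, if_pos h, if_neg (not_lt.2 h.le)]
    ring
  · rw [if_pos h, if_neg (by rw [h]; exact lt_irrefl _), if_neg (by rw [h]; exact lt_irrefl _)]
    ring
  · rw [if_neg h.ne', if_neg (not_lt.2 h.le), if_pos h]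
    ring

theorem sum_bound {a : Fin r → Places S → ℂ} (h : Forms a) {y : ℝ} (hy : (r : ℝ) < y ^ 2)
    (hy0 : 0 ≤ y) :
    UpperDensityLe {v | y ≤ |∑ k, lam a k v|}
      ((2 * r ^ 2 - r) / (2 * r ^ 2 - r + (y ^ 2 - r) ^ 2)) := by
  have hcard := card_pairs r
  set Z : ℝ := y ^ 2 - r with hZ
  have hZ0 : 0 < Z := by rw [hZ]; linarith
  set N : ℝ := 2 * r ^ 2 - r with hN
  have hN0 : 0 ≤ N := by
    rw [hN]
    rcases Nat.eq_zero_or_pos r with h0 | h0
    · rw [h0]; norm_num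
    · have : (1 : ℝ) ≤ r := by exact_mod_cast h0
      nlinarith
  have h1 := dens h (N / Z) (fun _ i => if i = 1 then 1 else 0) (fun _ _ => 2)
    (B := {v | y ≤ |∑ k, lam a k v|}) (X := N / Z + Z) (by positivity) fun v hv => by
      have hv' : y ≤ |∑ k, lam a k v| := hv
      have h2 : y ^ 2 ≤ (∑ k, lam a k v) ^ 2 := by
        rw [← sq_abs (∑ k, lam a k v)]
        exact pow_le_pow_left₀ hy0 hv' 2
      have h3 : ∀ k, ∑ i, (if i = 1 then (1 : ℝ) else 0) * U i (lam a k v) =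
          lam a k v ^ 2 - 1 := by
        intro k
        unfold U
        rw [Fin.sum_univ_four]
        simp
      simp only [h3]
      rw [← Finset.mul_sum, Finset.sum_sub_distrib]
      have h4 := sum_sq fun k => lam a k v
      simp only [Finset.sum_const, Finset.card_univ, Fintype.card_fin, nsmul_eq_mul, mul_one]
      rw [hZ]
      linarith
  have e1 : ∑ _k : Fin r, ∑ i : Fin 4, (if i = 1 then (1 : ℝ) else 0) ^ 2 = r := by
    have : ∑ i : Fin 4, (if i = 1 then (1 : ℝ) else 0) ^ 2 = 1 := by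
      rw [Fin.sum_univ_four]
      simp
    rw [this]
    simp
  have e2 : ∑ _p : {p : Fin r × Fin r // p.1 < p.2}, (2 : ℝ) ^ 2 = 2 * r * (r - 1) := by
    rw [Finset.sum_const, Finset.card_univ, nsmul_eq_mul, hcard]
    ring
  rw [e1, e2] at h1
  have e3 : ((N / Z) ^ 2 + r + 2 * r * (r - 1)) / (N / Z + Z) ^ 2 = N / (N + Z ^ 2) := by
    have e4 : (r : ℝ) + 2 * r * (r - 1) = N := by rw [hN]; ring
    rw [add_assoc, e4]
    have h5 : 0 < N + Z ^ 2 := by positivity
    have h6 : N / Z + Z = (N + Z ^ 2) / Z := by field_simp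
    rw [h6]
    field_simp
  rw [e3] at h1
  exact h1

end

/-- **Prescribed signs.**  Let `S` be a finite set of finite places of the number field `K` and let `φ_1, ..., φ_r`
be forms on `PGL_2` as in `Forms`, with the Hecke eigenvalues `λ_k(v) = lam a k v`.

1. Let `ε_k = ± 1` and `T_k ≥ (1 + √5)/2`.  The places with `ε_k λ_k(v) ≥ T_k` for all `k` have upper density at
   most `1 / (1 + ∑_k W(T_k) + ∑_{j<k} (T_j T_k)²)`,
   `W(T) = T² + (T² - 1)² + (T³ - 2 T)² + (T⁴ - 3 T² + 1)²`.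
2. The places with `ε_k λ_k(v) ≥ 2` for all `k`, in particular those at which all forms violate the conjecture
   of Ramanujan with the signs `ε_k`, have upper density at most `1 / (8 r² + 46 r + 1)`.
3. For `y ≥ 0` with `y² > r` the places with `|λ_1(v) + ... + λ_r(v)| ≥ y` have upper density at most
   `(2 r² - r) / (2 r² - r + (y² - r)²)`. -/
theorem result {K : Type} [Field K] [NumberField K] (S : Finset (HeightOneSpectrum (𝓞 K)))
    (r : ℕ) (a : Fin r → Places S → ℂ) (h : Forms a) :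
    (∀ ε T : Fin r → ℝ, (∀ k, ε k = 1 ∨ ε k = -1) → (∀ k, (1 + √5) / 2 ≤ T k) →
      UpperDensityLe {v | ∀ k, T k ≤ ε k * lam a k v} (1 / (1 + ∑ k, W (T k) +
        ∑ p : {p : Fin r × Fin r // p.1 < p.2}, (T p.1.1 * T p.1.2) ^ 2))) ∧
    (∀ ε : Fin r → ℝ, (∀ k, ε k = 1 ∨ ε k = -1) →
      UpperDensityLe {v | ∀ k, 2 ≤ ε k * lam a k v} (1 / (8 * r ^ 2 + 46 * r + 1))) ∧
    ∀ y : ℝ, 0 ≤ y → (r : ℝ) < y ^ 2 → UpperDensityLe {v | y ≤ |∑ k, lam a k v|}
      ((2 * r ^ 2 - r) / (2 * r ^ 2 - r + (y ^ 2 - r) ^ 2)) := by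
  refine ⟨fun ε T hε hT => signs_bound h hε hT, fun ε hε => ?_, fun y hy0 hy =>
    sum_bound h hy hy0⟩
  have h5 : √5 ≤ 3 := by
    rw [Real.sqrt_le_left (by norm_num)]
    norm_num
  have h1 := signs_bound h (T := fun _ => 2) hε fun k => by linarith
  have e : 1 + ∑ _k : Fin r, W 2 + ∑ _p : {p : Fin r × Fin r // p.1 < p.2}, ((2 : ℝ) * 2) ^ 2 =
      8 * r ^ 2 + 46 * r + 1 := by
    rw [Finset.sum_const, Finset.sum_const, Finset.card_univ, Finset.card_univ, nsmul_eq_mul,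
      nsmul_eq_mul, card_pairs, Fintype.card_fin]
    unfold W
    ring
  rw [e] at h1
  exact h1

end Pool.Agent.Results.MP_fa98d2_nt.PrescribedSigns
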