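import Mathlib
import Pool.Agent.X298.RO.Crit

/-!
# Spherical cusp forms on `PGL_n`: Ramanujan at a place from the other places

Let `n ≥ 2` and let `φ` be a spherical cusp form on `PGL_n` over `ℚ`, with Satake parameters `α_{i,p}` and Langlands
parameters `μ_i` at the real place. Let `S` be a finite set of primes. For `0 < σ < 1`, `γ > π/2` and `T > 0` let

  `R_S(σ, T) = ∑_{p ∉ S} ∑_{k ≥ 1} |∑_i α_{i,p}^k|² p^{kσ} cos(γ k log p / T) / (k Γ(1 + k log p / T))`,

a sum over the powers of the primes outside of `S`; it converges absolutely. We show: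

* `R_S(σ, T) = - m log T + O(1)` for `T → ∞`, where `m` is the number of the pairs `(i, j)` with `μ_i - μ_j = σ`, plus the
  number of the triples `(p, i, j)`, `p ∈ S`, with `α_{i,p} conj(α_{j,p}) = p^{-σ}`;
* for `0 ≤ θ < 1/2` the bounds `θ_{φ,v} ≤ θ` hold at the real place **and** at the primes `v ∈ S` if and only if
  `R_S(σ, T)` is bounded (`T → ∞`) for every `2θ < σ < 1`, and if and only if for each of these `σ` there is `c < 1` with
  `R_S(σ, T) ≥ -c log T` for arbitrarily large `T`;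
* `φ` satisfies the generalized Ramanujan conjecture at all places if and only if for all primes `p` and `0 < σ < 1` there
  is `c < 1` with `R_{p}(σ, T) ≥ -c log T` for arbitrarily large `T`.

So the temperedness of the real component, and of any finite set of other components, and the exact value
`max_v θ_{φ,v}`, are read off from the Hecke eigenvalues at the other primes.

The proof: by the functional equation the Gamma factors and the missing Euler factors force zeros of the partial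
`L`-function `L^S(s, π × π~)` on the segment `-1 < s < 0`, which has no other zeros there, since `L(s, π × π~)` has no zeros
for `Re s > 1`; a pair `α, 1/conj α` with `|α| = p^θ ≠ 1` gives the zero `s = -2 |θ|`. The order of the zero at `-σ` is
seen by the rotated means of `log L^S`, whose weights decay so fast that the sums converge absolutely, and which do not
see the singularities on the segment to the right of `-σ`.
-/

set_option autoImplicit false

namespace Pool.Agent.Results.MP_fa98d2_nt.TemperedFromOtherPlaces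

open Filter
open Pool.Agent.TH949.RES (SphericalCuspForm)
open Pool.Agent.X298.RO

/-- **Ramanujan at a place from the other places.** -/
theorem result {n : ℕ} (α : Nat.Primes → Fin n → ℂ) (μ : Fin n → ℂ) (h : SphericalCuspForm α μ)
    (hα : ∀ (p : Nat.Primes) i, ‖α p i‖ < ((p : ℕ) : ℝ) ^ (1 / 2 : ℝ)) (hμ : ∀ i, |(μ i).re| < 1 / 2)
    (γ : ℝ) (hγ : Real.pi / 2 < γ) :
    (∀ (S : Finset Nat.Primes) (σ T : ℝ), 0 < T → Summable fun x => |term S α γ σ T x|) ∧
    (∀ (S : Finset Nat.Primes) (σ : ℝ), 0 < σ → σ < 1 →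
      ∃ C : ℝ, ∀ᶠ T : ℝ in atTop, |R S α γ σ T + mult S α μ σ * Real.log T| ≤ C) ∧
    (∀ (S : Finset Nat.Primes) (θ : ℝ), 0 ≤ θ → θ < 1 / 2 →
      (Bound S α μ θ ↔ ∀ σ : ℝ, 2 * θ < σ → σ < 1 → ∃ C : ℝ, ∀ᶠ T : ℝ in atTop, |R S α γ σ T| ≤ C) ∧
      (Bound S α μ θ ↔ ∀ σ : ℝ, 2 * θ < σ → σ < 1 →
        ∃ c : ℝ, c < 1 ∧ ∃ᶠ T : ℝ in atTop, -(c * Real.log T) ≤ R S α γ σ T)) ∧
    (((∀ p i, ‖α p i‖ = 1) ∧ ∀ i, (μ i).re = 0) ↔ ∀ (p : Nat.Primes) (σ : ℝ), 0 < σ → σ < 1 →
      ∃ c : ℝ, c < 1 ∧ ∃ᶠ T : ℝ in atTop, -(c * Real.log T) ≤ R {p} α γ σ T) := by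
  have key : ∀ (S : Finset Nat.Primes) (θ : ℝ), 0 ≤ θ → 
      (Bound S α μ θ ↔ ∀ σ : ℝ, 2 * θ < σ → σ < 1 → ∃ C : ℝ, ∀ᶠ T : ℝ in atTop, |R S α γ σ T| ≤ C) ∧
      (Bound S α μ θ ↔ ∀ σ : ℝ, 2 * θ < σ → σ < 1 →
        ∃ c : ℝ, c < 1 ∧ ∃ᶠ T : ℝ in atTop, -(c * Real.log T) ≤ R S α γ σ T) := by
    intro S θ hθ
    obtain ⟨h1, h2⟩ := criterion h hα hμ hγ S hθ
    have h3 : (∀ σ : ℝ, 2 * θ < σ → σ < 1 → ∃ C : ℝ, ∀ᶠ T : ℝ in atTop, |R S α γ σ T| ≤ C) →
        ∀ σ : ℝ, 2 * θ < σ → σ < 1 →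
          ∃ c : ℝ, c < 1 ∧ ∃ᶠ T : ℝ in atTop, -(c * Real.log T) ≤ R S α γ σ T := by
      intro H σ h4 h5
      obtain ⟨C, hC⟩ := H σ h4 h5
      refine ⟨1 / 2, by norm_num, Eventually.frequently ?_⟩
      have h6 : ∀ᶠ T : ℝ in atTop, 2 * C < Real.log T :=
        Real.tendsto_log_atTop.eventually (eventually_gt_atTop _)
      filter_upwards [hC, h6] with T h7 h8
      have h9 := (abs_le.1 h7).1
      linarith
    exact ⟨⟨h1, fun H => h2 (h3 H)⟩, ⟨fun hB => h3 (h1 hB), h2⟩⟩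
  refine ⟨fun S σ T hT => term_summable h S γ σ hT, fun S σ h0 h1 => law_real h hα hμ S h0 h1 hγ,
    fun S θ hθ _ => key S θ hθ, ?_⟩
  constructor
  · rintro ⟨h1, h2⟩ p
    have h3 := (key {p} 0 le_rfl).2.1 ((bound_zero h {p}).2 ⟨h2, fun q _ i => h1 q i⟩)
    intro σ h4 h5
    exact h3 σ (by simpa using h4) h5
  · intro H
    have h1 : ∀ p : Nat.Primes, Bound {p} α μ 0 := by
      intro p
      refine (key {p} 0 le_rfl).2.2 fun σ h4 h5 => H p σ (by simpa using h4) h5
    refine ⟨fun p i => ((bound_zero h {p}).1 (h1 p)).2 p (Finset.mem_singleton_self p) i, ?_⟩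
    exact ((bound_zero h {⟨2, Nat.prime_two⟩}).1 (h1 ⟨2, Nat.prime_two⟩)).1

end Pool.Agent.Results.MP_fa98d2_nt.TemperedFromOtherPlaces
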